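import Mathlib

set_option autoImplicit false

namespace Pool.Agent.Results.MP_eea90e_nt.Proof

open Finset Filter

/-- The odd-to-odd Collatz trajectory of `x`. -/
def traj (x : ℕ) : ℕ → ℕ
  | 0 => x
  | n + 1 => (3 * traj x n + 1) / 2 ^ padicValNat 2 (3 * traj x n + 1)

/-- `a 1, a 2, …` is the E-sequence of `x`. -/
def IsESeq (a : ℕ → ℕ) (x : ℕ) : Prop := ∀ n, a (n + 1) = padicValNat 2 (3 * traj x n + 1)

def EvPeriodic (a : ℕ → ℕ) : Prop := ∃ l r, 1 ≤ r ∧ ∀ n > l, a (n + r) = a n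

def T (n : ℕ) : ℕ := if n % 2 = 0 then n / 2 else (3 * n + 1) / 2

def o : ℕ → ℕ → ℕ
  | 0, _ => 0
  | k + 1, n => o k n + T^[k] n % 2

theorem shift (k n m : ℕ) :
    T^[k] (n + 2 ^ k * m) = T^[k] n + 3 ^ o k n * m ∧ o k (n + 2 ^ k * m) = o k n := by
  induction k generalizing m with
  | zero => simp [o]
  | succ k ih =>
    obtain ⟨h1, h2⟩ := ih (2 * m)
    rw [mul_left_comm (3 ^ _)] at h1
    simp only [pow_succ 2, mul_assoc, Function.iterate_succ_apply', o, h1, h2]
    rcases Nat.mod_two_eq_zero_or_one (T^[k] n) with h | h <;>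
      simp [T, h, pow_succ, mul_right_comm _ 3 m, Nat.add_mul_mod_self_left] <;> omega

theorem small (k : ℕ) : ∀ n < 2 ^ k, T^[k] n < 3 ^ o k n := by
  induction k with
  | zero => simp [o]
  | succ k ih =>
    intro n hn
    have h1 := ih (n % 2 ^ k) (Nat.mod_lt _ (by positivity))
    obtain ⟨h2, h3⟩ := shift k (n % 2 ^ k) (n / 2 ^ k)
    have h4 : n / 2 ^ k ≤ 1 := Nat.le_of_lt_succ (Nat.div_lt_of_lt_mul (by rwa [pow_succ] at hn))
    rw [Nat.mod_add_div] at h2 h3
    have h5 := Nat.mul_le_mul_left (3 ^ o k (n % 2 ^ k)) h4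
    rw [Function.iterate_succ_apply', o, h3]
    rcases Nat.mod_two_eq_zero_or_one (T^[k] n) with h | h <;>
      simp only [T, h, pow_succ, add_zero] <;> split_ifs <;> omega

theorem mom (k : ℕ) : ∑ n ∈ range (2 ^ k), (3 / 2 : ℝ) ^ o k n = (5 / 2) ^ k := by
  induction k with
  | zero => simp [o]
  | succ k ih =>
    rw [pow_succ, mul_two, sum_range_add, ← sum_add_distrib, pow_succ, ← ih, sum_mul]
    refine sum_congr rfl fun n _ => ?_
    obtain ⟨h1, h2⟩ := shift k n 1
    rw [mul_one, add_comm] at h1 h2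
    have : 3 ^ o k n % 2 = 1 := Nat.odd_iff.1 (Odd.pow (by decide))
    simp only [o, h1, h2, mul_one]
    rcases Nat.mod_two_eq_zero_or_one (T^[k] n) with h | h
    · rw [h, show (T^[k] n + 3 ^ o k n) % 2 = 1 by omega]; ring
    · rw [h, show (T^[k] n + 3 ^ o k n) % 2 = 0 by omega]; ring

theorem count {F : Finset ℕ} (hF : ∀ k, Set.InjOn T^[k] F) (j : ℕ) :
    (#{n ∈ F | n < 32 ^ j} : ℝ) ≤ 2 * 29 ^ j := by
  have h0 : 32 ^ j = 2 ^ (5 * j) := by rw [pow_mul]; norm_num
  have h1 : #{n ∈ {n ∈ F | n < 32 ^ j} | o (5 * j) n ≤ 3 * j} ≤ #(range (29 ^ j)) :=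
    card_le_card_of_injOn T^[5 * j] (fun n hn => by
      simp only [coe_filter, mem_filter, Set.mem_ofPred_eq, h0] at hn
      refine mem_coe.2 (mem_range.2 ((small _ _ hn.1.2).trans_le
        ((Nat.pow_le_pow_right (by norm_num) hn.2).trans ?_)))
      rw [pow_mul]
      exact Nat.pow_le_pow_left (by norm_num) _)
      ((hF _).mono fun n hn => by simp only [coe_filter, mem_filter] at hn; exact hn.1.1)
  have h2 : (#{n ∈ {n ∈ F | n < 32 ^ j} | ¬o (5 * j) n ≤ 3 * j} : ℝ) * (3 / 2) ^ (3 * j) ≤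
      29 ^ j * (3 / 2) ^ (3 * j) := by
    rw [← nsmul_eq_mul]
    refine (card_nsmul_le_sum _ (fun n => (3 / 2 : ℝ) ^ o (5 * j) n) _ fun n hn =>
      pow_le_pow_right₀ (by norm_num) (not_le.1 (mem_filter.1 hn).2).le).trans
      ((sum_le_sum_of_subset_of_nonneg (t := range (2 ^ (5 * j))) (fun n hn => mem_range.2
        (h0 ▸ (mem_filter.1 (mem_filter.1 hn).1).2)) fun _ _ _ => by positivity).trans ?_)
    rw [mom, pow_mul, pow_mul, ← mul_pow]
    exact pow_le_pow_left₀ (by norm_num) (by norm_num) _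
  have h3 := le_of_mul_le_mul_right h2 (by positivity)
  rw [← card_filter_add_card_filter_not (fun n => o (5 * j) n ≤ 3 * j)]
  rw [card_range] at h1
  have h4 : (_ : ℝ) ≤ _ := Nat.cast_le.2 h1
  push_cast at h4 ⊢
  linarith

theorem recip {F : Finset ℕ} (hF : ∀ k, Set.InjOn T^[k] F) : ∑ n ∈ F, (1 / n : ℝ) ≤ 640 := by
  have h : ∀ j, ∑ n ∈ F with n < 32 ^ j, (1 / n : ℝ) ≤ 640 * (1 - (29 / 32) ^ j) := fun j => by
    induction j with
    | zero => simpa using (sum_eq_zero fun n hn => by simp_all).le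
    | succ j ih =>
      rw [← sum_filter_add_sum_filter_not _ (· < 32 ^ j), filter_filter, filter_congr
        (q := (· < 32 ^ j)) fun n _ => and_iff_right_of_imp fun h => by rw [pow_succ]; omega]
      have h1 := sum_le_card_nsmul {n ∈ {n ∈ F | n < 32 ^ (j + 1)} | ¬n < 32 ^ j}
        (fun n => (1 / n : ℝ)) (1 / 32 ^ j) fun n hn => one_div_le_one_div_of_le (by positivity)
          (by exact_mod_cast not_lt.1 (mem_filter.1 hn).2)
      have h2 := mul_le_mul_of_nonneg_right ((Nat.cast_le.2 (card_filter_le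
        {n ∈ F | n < 32 ^ (j + 1)} (¬· < 32 ^ j))).trans (count hF (j + 1)))
        (by positivity : (0 : ℝ) ≤ 1 / 32 ^ j)
      rw [nsmul_eq_mul] at h1
      have h3 : (2 * 29 ^ (j + 1) * (1 / 32 ^ j) : ℝ) = 58 * (29 / 32) ^ j := by
        rw [div_pow]; ring
      have h4 : (0 : ℝ) ≤ (29 / 32) ^ j := by positivity
      rw [pow_succ (29 / 32 : ℝ)]
      linarith
  have h1 := h (F.sup id)
  rw [filter_true_of_mem (p := (· < 32 ^ F.sup id)) fun n hn => (le_sup (f := id) hn).trans_lt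
    (Nat.lt_pow_self (by norm_num))] at h1
  have : (0 : ℝ) ≤ (29 / 32) ^ F.sup id := by positivity
  linarith

theorem half (k m : ℕ) : T^[k] (2 ^ k * m) = m := by
  have h : ∀ k, T^[k] 0 = 0 ∧ o k 0 = 0 := fun k => by
    induction k with
    | zero => simp [o]
    | succ k ih => simp [Function.iterate_succ_apply', o, ih, T]
  simpa [h] using (shift k 0 m).1

theorem result (a : ℕ → ℕ) (hp : ¬EvPeriodic a)
    (hb : ∃ᶠ n : ℕ in atTop, n * Real.logb 2 3 < (∑ i ∈ Icc 1 n, a i : ℕ)) :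
    ¬∃ x, Odd x ∧ IsESeq a x := by
  rintro ⟨x, hx, ha⟩
  have h1 : ∀ n, 2 ^ a (n + 1) * traj x (n + 1) = 3 * traj x n + 1 := fun n => by
    rw [ha, traj, Nat.mul_div_cancel' pow_padicValNat_dvd]
  have h2 : ∀ n, Odd (traj x n) := fun n => by
    cases n with
    | zero => exact hx
    | succ n =>
      refine Nat.not_even_iff_odd.1 fun ⟨c, hc⟩ => pow_succ_padicValNat_not_dvd (p := 2)
        (n := 3 * traj x n + 1) (by omega) ⟨c, ?_⟩
      rw [← ha, ← h1, hc]
      ring
  have h3 : (traj x).Injective := by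
    refine Function.Injective.of_lt_imp_ne fun i j hij h => hp ⟨i, j - i, by omega, fun n hn => ?_⟩
    have : ∀ k, traj x (j + k) = traj x (i + k) := fun k => by
      induction k with
      | zero => exact h.symm
      | succ k ih => rw [← add_assoc, ← add_assoc, traj, traj, ih]
    obtain ⟨k, rfl⟩ := Nat.exists_eq_add_of_lt hn
    rw [show i + k + 1 + (j - i) = j + k + 1 by omega, ha, ha, this]
  have h4 : ∀ n, ∃ k, T^[k] x = traj x n := fun n => by
    induction n with
    | zero => exact ⟨0, rfl⟩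
    | succ n ih =>
      obtain ⟨k, hk⟩ := ih
      have h5 := h1 n
      have h6 := Nat.odd_iff.1 (h2 n)
      cases h7 : a (n + 1) with
      | zero => rw [h7] at h5; have := Nat.odd_iff.1 (h2 (n + 1)); omega
      | succ c =>
        refine ⟨c + 1 + k, ?_⟩
        rw [h7, pow_succ', mul_assoc] at h5
        rw [Function.iterate_add_apply, hk, Function.iterate_succ_apply,
          show T (traj x n) = 2 ^ c * traj x (n + 1) by simp only [T]; split_ifs <;> omega, half]
  have h5 : (fun k => T^[k] x).Injective := by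
    refine Function.Injective.of_lt_imp_ne fun p q hpq h => Set.infinite_range_of_injective h3
      (((Set.finite_Iio q).image fun k => T^[k] x).subset ?_)
    rintro _ ⟨n, rfl⟩
    obtain ⟨k, hk⟩ := h4 n
    rw [← hk]
    clear hk
    induction k using Nat.strong_induction_on with
    | _ k ih =>
    rcases lt_or_ge k q with h6 | h6
    · exact ⟨k, h6, rfl⟩
    · obtain ⟨k, rfl⟩ := Nat.exists_eq_add_of_le' h6
      have := ih (k + p) (by omega)
      rwa [Function.iterate_add_apply, h, ← Function.iterate_add_apply] at this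
  have h6 : ∀ n, ∑ i ∈ range n, (1 / traj x i : ℝ) ≤ 640 := fun n => by
    rw [← sum_image (f := fun m : ℕ => (1 / m : ℝ)) h3.injOn]
    refine recip fun k u hu v hv h => ?_
    obtain ⟨i, -, rfl⟩ := mem_image.1 hu
    obtain ⟨j, -, rfl⟩ := mem_image.1 hv
    obtain ⟨p, hp⟩ := h4 i
    obtain ⟨q, hq⟩ := h4 j
    rw [← hp, ← hq, ← Function.iterate_add_apply, ← Function.iterate_add_apply] at h
    rw [← hp, ← hq, add_left_cancel (h5 h)]
  have h7 : ∀ n, (2 : ℝ) ^ (∑ i ∈ Icc 1 n, a i) * traj x n ≤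
      3 ^ n * x * Real.exp (∑ i ∈ range n, (1 / traj x i : ℝ)) := fun n => by
    induction n with
    | zero => simp [traj]
    | succ n ih =>
      have h8 : (0 : ℝ) < traj x n := by exact_mod_cast (h2 n).pos
      have h9 : (2 : ℝ) ^ a (n + 1) * traj x (n + 1) ≤ traj x n * (3 * Real.exp (1 / traj x n)) := by
        have := mul_le_mul_of_nonneg_left (Real.add_one_le_exp (1 / traj x n)) h8.le
        rw [mul_add, mul_one_div_cancel h8.ne'] at this
        rw [show (2 : ℝ) ^ a (n + 1) * traj x (n + 1) = 3 * traj x n + 1 by exact_mod_cast h1 n]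
        linarith
      rw [sum_Icc_succ_top (by omega), sum_range_succ, pow_add, Real.exp_add, mul_assoc]
      calc _ ≤ 2 ^ (∑ i ∈ Icc 1 n, a i) * traj x n * (3 * Real.exp (1 / traj x n)) := by
            rw [mul_assoc]; gcongr
        _ ≤ _ := (mul_le_mul_of_nonneg_right ih (by positivity)).trans_eq (by ring)
  obtain ⟨n, h8, h9⟩ := (hb.and_eventually ((tendsto_natCast_atTop_atTop (R := ℝ).comp
    h3.nat_tendsto_atTop).eventually_gt_atTop (x * Real.exp 640))).exists
  have h10 : (3 : ℝ) ^ n ≤ 2 ^ (∑ i ∈ Icc 1 n, a i) := by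
    have := Real.rpow_le_rpow_of_exponent_le one_le_two h8.le
    rwa [mul_comm, Real.rpow_mul_natCast zero_le_two, Real.rpow_logb two_pos (by norm_num) three_pos,
      Real.rpow_natCast] at this
  refine h9.not_ge (le_of_mul_le_mul_left (a := 3 ^ n) ?_ (by positivity))
  calc _ ≤ _ := mul_le_mul_of_nonneg_right h10 (Nat.cast_nonneg _)
    _ ≤ _ := h7 n
    _ ≤ _ := by rw [mul_assoc]; gcongr; exact h6 n

end Pool.Agent.Results.MP_eea90e_nt.Proof
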